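import Pool.Agent.Work.MP_d899bc_co.ST.Cross

/-!
Szemerédi–Trotter for rich lines: if `X` has at most `n^2` points, then at most `147456 n` lines
contain at least `n / 4` points of `X`.
-/

set_option autoImplicit false

namespace Pool.Agent.Work.MP_d899bc_co.ST

open Set Filter Topology

/-- points of `X` on the line `y = l.1 x + l.2` -/
noncomputable def onl (X : Finset (ℝ × ℝ)) (l : ℝ × ℝ) : Finset (ℝ × ℝ) :=
  open Classical in X.filter fun p => p.2 = l.1 * p.1 + l.2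

/-- pairs of consecutive points of `X` on the line `y = l.1 x + l.2` -/
noncomputable def seg (X : Finset (ℝ × ℝ)) (l : ℝ × ℝ) : Finset ((ℝ × ℝ) × (ℝ × ℝ)) :=
  open Classical in (onl X l ×ˢ onl X l).filter fun e =>
    e.1.1 < e.2.1 ∧ ∀ r ∈ onl X l, e.1.1 < r.1 → ¬ r.1 < e.2.1

theorem mem_onl {X : Finset (ℝ × ℝ)} {l p : ℝ × ℝ} :
    p ∈ onl X l ↔ p ∈ X ∧ p.2 = l.1 * p.1 + l.2 := by
  classical
  simp [onl]

theorem mem_seg {X : Finset (ℝ × ℝ)} {l : ℝ × ℝ} {e : (ℝ × ℝ) × (ℝ × ℝ)} :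
    e ∈ seg X l ↔ (e.1 ∈ onl X l ∧ e.2 ∈ onl X l) ∧ e.1.1 < e.2.1 ∧
      ∀ r ∈ onl X l, e.1.1 < r.1 → ¬ r.1 < e.2.1 := by
  classical
  simp only [seg, Finset.mem_filter, Finset.mem_product]

variable {X : Finset (ℝ × ℝ)}

theorem ht_of_seg {l : ℝ × ℝ} {e : (ℝ × ℝ) × (ℝ × ℝ)} (he : e ∈ seg X l) (x : ℝ) :
    ht e x = l.1 * x + l.2 := by
  obtain ⟨⟨h1, h2⟩, h3, -⟩ := mem_seg.mp he
  have a1 := (mem_onl.mp h1).2
  have a2 := (mem_onl.mp h2).2
  have h4 : e.2.1 - e.1.1 ≠ 0 := (sub_pos.mpr h3).ne'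
  have hs : slp e = l.1 := by
    rw [slp, a1, a2]
    field_simp
    ring
  rw [ht, hs, a1]
  ring

theorem card_seg (hinj : ∀ u ∈ X, ∀ w ∈ X, u.1 = w.1 → u = w) (l : ℝ × ℝ) :
    (onl X l).card ≤ (seg X l).card + 1 := by
  classical
  rcases (onl X l).eq_empty_or_nonempty with h0 | h0
  · simp [h0]
  obtain ⟨m, hm, hmax⟩ := Finset.exists_max_image (onl X l) (fun p => p.1) h0
  have hex : ∀ p : ℝ × ℝ, ∃ s, p ∈ (onl X l).erase m → (p, s) ∈ seg X l := by
    intro p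
    by_cases hp : p ∈ (onl X l).erase m
    · obtain ⟨hpm, hp1⟩ := Finset.mem_erase.mp hp
      have hlt : p.1 < m.1 := by
        refine lt_of_le_of_ne (hmax p hp1) fun h => hpm ?_
        exact hinj p (mem_onl.mp hp1).1 m (mem_onl.mp hm).1 h
      obtain ⟨s, hs, hsmin⟩ := Finset.exists_min_image ((onl X l).filter fun r => p.1 < r.1)
        (fun r => r.1) ⟨m, Finset.mem_filter.mpr ⟨hm, hlt⟩⟩
      obtain ⟨hs1, hs2⟩ := Finset.mem_filter.mp hs
      refine ⟨s, fun _ => mem_seg.mpr ⟨⟨hp1, hs1⟩, hs2, ?_⟩⟩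
      intro r hr hpr
      have := hsmin r (Finset.mem_filter.mpr ⟨hr, hpr⟩)
      exact not_lt.mpr this
    · exact ⟨p, fun h => absurd h hp⟩
  choose s hs using hex
  have h1 : ((onl X l).erase m).card ≤ (seg X l).card := by
    apply Finset.card_le_card_of_injOn (fun p => (p, s p))
    · intro p hp
      exact hs p hp
    · intro p _ r _ h
      exact (Prod.mk.inj h).1
  rw [Finset.card_erase_of_mem hm] at h1
  omega

theorem seg_unique {l : ℝ × ℝ} (hinj : ∀ u ∈ X, ∀ w ∈ X, u.1 = w.1 → u = w)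
    {e f : (ℝ × ℝ) × (ℝ × ℝ)} (he : e ∈ seg X l) (hf : f ∈ seg X l) {x : ℝ}
    (h1 : e.1.1 < x) (h2 : x < e.2.1) (h3 : f.1.1 < x) (h4 : x < f.2.1) : e = f := by
  obtain ⟨⟨a1, a2⟩, -, a4⟩ := mem_seg.mp he
  obtain ⟨⟨b1, b2⟩, -, b4⟩ := mem_seg.mp hf
  have c1 : e.1.1 = f.1.1 := by
    apply le_antisymm
    · by_contra hcon
      push Not at hcon
      exact b4 _ a1 hcon (h1.trans h4)
    · by_contra hcon
      push Not at hcon
      exact a4 _ b1 hcon (h3.trans h2)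
  have c2 : e.2.1 = f.2.1 := by
    apply le_antisymm
    · by_contra hcon
      push Not at hcon
      exact a4 _ b2 (h1.trans h4) hcon
    · by_contra hcon
      push Not at hcon
      exact b4 _ a2 (h3.trans h2) hcon
  exact Prod.ext (hinj _ (mem_onl.mp a1).1 _ (mem_onl.mp b1).1 c1)
    (hinj _ (mem_onl.mp a2).1 _ (mem_onl.mp b2).1 c2)

theorem drawing_segs (hinj : ∀ u ∈ X, ∀ w ∈ X, u.1 = w.1 → u = w) (L : Finset (ℝ × ℝ)) :
    open Classical in Drawing X (L.biUnion (seg X)) := by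
  classical
  refine ⟨?_, ?_, ?_, hinj, ?_⟩
  · intro e he
    obtain ⟨l, -, hl⟩ := Finset.mem_biUnion.mp he
    exact (mem_onl.mp (mem_seg.mp hl).1.1).1
  · intro e he
    obtain ⟨l, -, hl⟩ := Finset.mem_biUnion.mp he
    exact (mem_onl.mp (mem_seg.mp hl).1.2).1
  · intro e he
    obtain ⟨l, -, hl⟩ := Finset.mem_biUnion.mp he
    exact (mem_seg.mp hl).2.1
  · intro e he w hw h1 h2 h3
    obtain ⟨l, -, hl⟩ := Finset.mem_biUnion.mp he
    rw [ht_of_seg hl] at h3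
    exact (mem_seg.mp hl).2.2 w (mem_onl.mpr ⟨hw, h3⟩) h1 h2

theorem line_ext {l l' : ℝ × ℝ} (h : ∀ x : ℝ, l.1 * x + l.2 = l'.1 * x + l'.2) : l = l' := by
  have h0 := h 0
  have h1 := h 1
  simp only [mul_zero, zero_add, mul_one] at h0 h1
  exact Prod.ext (by linarith) h0

theorem line_meet {l l' : ℝ × ℝ} (hne : l ≠ l') {x y : ℝ}
    (hx : l.1 * x + l.2 = l'.1 * x + l'.2) (hy : l.1 * y + l.2 = l'.1 * y + l'.2) : x = y := by
  by_contra hxy
  apply hne
  have h1 : (l.1 - l'.1) * (x - y) = 0 := by linarith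
  have h2 : l.1 = l'.1 := by
    rcases mul_eq_zero.mp h1 with h | h
    · linarith
    · exact absurd (by linarith) hxy
  refine Prod.ext h2 ?_
  rw [h2] at hx
  linarith

theorem card_segs (hinj : ∀ u ∈ X, ∀ w ∈ X, u.1 = w.1 → u = w) (L : Finset (ℝ × ℝ)) :
    open Classical in ∑ l ∈ L, (onl X l).card ≤ (L.biUnion (seg X)).card + L.card := by
  classical
  rw [Finset.card_biUnion]
  · calc ∑ l ∈ L, (onl X l).card ≤ ∑ l ∈ L, ((seg X l).card + 1) :=
        Finset.sum_le_sum fun l _ => card_seg hinj l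
      _ = _ := by rw [Finset.sum_add_distrib]; simp
  · intro l _ l' _ hne
    show Disjoint (seg X l) (seg X l')
    rw [Finset.disjoint_left]
    intro e he he'
    exact hne (line_ext fun x => by rw [← ht_of_seg he, ← ht_of_seg he'])

theorem card_cross (hinj : ∀ u ∈ X, ∀ w ∈ X, u.1 = w.1 → u = w) (L : Finset (ℝ × ℝ)) :
    open Classical in (crossPairs (L.biUnion (seg X))).card ≤ L.card ^ 2 := by
  classical
  have hex : ∀ e : (ℝ × ℝ) × (ℝ × ℝ), ∃ l, e ∈ L.biUnion (seg X) → l ∈ L ∧ e ∈ seg X l := by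
    intro e
    by_cases he : e ∈ L.biUnion (seg X)
    · obtain ⟨l, hl, hel⟩ := Finset.mem_biUnion.mp he
      exact ⟨l, fun _ => ⟨hl, hel⟩⟩
    · exact ⟨(0, 0), fun h => absurd h he⟩
  choose g hg using hex
  have hc : L.card ^ 2 = (L ×ˢ L).card := by rw [Finset.card_product, sq]
  rw [hc]
  apply Finset.card_le_card_of_injOn (fun p => (g p.1, g p.2))
  · intro p hp
    have hp' := Finset.mem_product.mp (Finset.mem_filter.mp hp).1
    exact Finset.mem_product.mpr ⟨(hg _ hp'.1).1, (hg _ hp'.2).1⟩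
  · intro p hp r hr hpr
    obtain ⟨hp1, hpc⟩ := Finset.mem_filter.mp hp
    obtain ⟨hr1, hrc⟩ := Finset.mem_filter.mp hr
    obtain ⟨hpe, hpf⟩ := Finset.mem_product.mp hp1
    obtain ⟨hre, hrf⟩ := Finset.mem_product.mp hr1
    obtain ⟨h1, h2⟩ := Prod.mk.inj hpr
    have e1 := (hg _ hpe).2
    have f1 := (hg _ hpf).2
    have e2 := (hg _ hre).2
    have f2 := (hg _ hrf).2
    rw [← h1] at e2
    rw [← h2] at f2
    obtain ⟨hne, x, x1, x2, x3, x4, x5⟩ := hpc
    obtain ⟨-, y, y1, y2, y3, y4, y5⟩ := hrc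
    have hll : g p.1 ≠ g p.2 := by
      intro h
      rw [← h] at f1
      exact hne (seg_unique hinj e1 f1 x1 x2 x3 x4)
    rw [ht_of_seg e1, ht_of_seg f1] at x5
    rw [ht_of_seg e2, ht_of_seg f2] at y5
    have hxy : x = y := line_meet hll x5 y5
    subst hxy
    exact Prod.ext (seg_unique hinj e1 e2 x1 x2 y1 y2) (seg_unique hinj f1 f2 x3 x4 y3 y4)

theorem rich_aux (n : ℕ) (hn : 8 ≤ n) (hX : X.card ≤ n ^ 2)
    (hinj : ∀ u ∈ X, ∀ w ∈ X, u.1 = w.1 → u = w) (L : Finset (ℝ × ℝ))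
    (hk : ∀ l ∈ L, n ≤ 4 * (onl X l).card) : L.card ≤ 147456 * n := by
  classical
  by_contra hcon
  push Not at hcon
  set M := L.card with hM
  set E := L.biUnion (seg X) with hE
  have h1 : M * n ≤ 8 * E.card := by
    have a1 := card_segs hinj L
    have a2 : M * n ≤ 4 * ∑ l ∈ L, (onl X l).card := by
      rw [Finset.mul_sum]
      calc M * n = ∑ _l ∈ L, n := by rw [Finset.sum_const, smul_eq_mul]
        _ ≤ _ := Finset.sum_le_sum hk
    have a3 : 8 * M ≤ M * n := by rw [mul_comm]; exact Nat.mul_le_mul_left _ hn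
    rw [← hE, ← hM] at a1
    nlinarith
  have h2 : ∀ q : ℕ, 0 < q → M * n * q ^ 2 ≤ 24 * n ^ 2 * q ^ 3 + 8 * M ^ 2 := by
    intro q hq
    have b1 := crossing_lemma (drawing_segs hinj L) q hq
    have b2 := card_cross hinj L
    rw [← hE] at b1 b2
    calc M * n * q ^ 2 ≤ 8 * E.card * q ^ 2 := Nat.mul_le_mul_right _ h1
      _ = 8 * (E.card * q ^ 2) := by ring
      _ ≤ 8 * (3 * X.card * q ^ 3 + (crossPairs E).card) := Nat.mul_le_mul_left _ b1
      _ ≤ 8 * (3 * n ^ 2 * q ^ 3 + M ^ 2) := by gcongr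
      _ = _ := by ring
  set q := M / (48 * n) with hq
  have hn0 : 0 < n := by omega
  have hq1 : q * (48 * n) ≤ M := Nat.div_mul_le_self _ _
  have hq2 : M < (q + 1) * (48 * n) := by
    have := Nat.lt_div_mul_add (a := M) (b := 48 * n) (by omega)
    rw [← hq] at this
    linarith
  have hq0 : 0 < q := by
    rw [hq]
    apply Nat.div_pos _ (by omega)
    omega
  have h3 := h2 q hq0
  have hMpos : 0 < M := by omega
  -- 24 n^2 q^3 ≤ M n q^2 / 2
  have h4 : 2 * (24 * n ^ 2 * q ^ 3) ≤ M * n * q ^ 2 := by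
    calc 2 * (24 * n ^ 2 * q ^ 3) = (q * (48 * n)) * (n * q ^ 2) := by ring
      _ ≤ M * (n * q ^ 2) := Nat.mul_le_mul_right _ hq1
      _ = _ := by ring
  have h5 : n * q ^ 2 ≤ 16 * M := by
    have : M * (n * q ^ 2) ≤ M * (16 * M) := by nlinarith
    exact Nat.le_of_mul_le_mul_left this hMpos
  have h6 : M < 96 * n * q := by nlinarith
  have h7 : M ^ 2 < (96 * n * q) ^ 2 := Nat.pow_lt_pow_left h6 (by norm_num)
  have h8 : (96 * n * q) ^ 2 ≤ 147456 * n * M := by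
    calc (96 * n * q) ^ 2 = 9216 * n * (n * q ^ 2) := by ring
      _ ≤ 9216 * n * (16 * M) := Nat.mul_le_mul_left _ h5
      _ = _ := by ring
  have h9 : M * M < 147456 * n * M := by nlinarith
  have h10 : M < 147456 * n := Nat.lt_of_mul_lt_mul_right h9
  omega

/-- there is a shear after which all abscissas are different -/
theorem exists_shear (X : Finset (ℝ × ℝ)) :
    ∃ t : ℝ, ∀ u ∈ X, ∀ w ∈ X, u.1 + t * u.2 = w.1 + t * w.2 → u = w := by
  classical
  obtain ⟨t, ht⟩ := Infinite.exists_notMem_finset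
    ((X ×ˢ X).image fun p => -(p.1.1 - p.2.1) / (p.1.2 - p.2.2))
  refine ⟨t, fun u hu w hw h => ?_⟩
  by_contra hne
  have h2 : u.2 - w.2 ≠ 0 := by
    intro h2
    apply hne
    have h3 : u.2 = w.2 := by linarith
    rw [h3] at h
    exact Prod.ext (by linarith) h3
  apply ht
  refine Finset.mem_image.mpr ⟨(u, w), Finset.mem_product.mpr ⟨hu, hw⟩, ?_⟩
  simp only
  rw [div_eq_iff h2]
  linarith

/-- Szemerédi–Trotter for rich lines. -/
theorem rich_lines (n : ℕ) (hn : 8 ≤ n) (X : Finset (ℝ × ℝ)) (hX : X.card ≤ n ^ 2)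
    (𝓛 : Finset (Set (ℝ × ℝ)))
    (hlines : ∀ ℓ ∈ 𝓛, ∃ a b c : ℝ, (a ≠ 0 ∨ b ≠ 0) ∧ ℓ = {q | a * q.1 + b * q.2 = c})
    (hk : ∀ ℓ ∈ 𝓛, n ≤ 4 * {q | q ∈ X ∧ q ∈ ℓ}.ncard) : 𝓛.card ≤ 147456 * n := by
  classical
  obtain ⟨t, hT⟩ := exists_shear X
  set T : ℝ × ℝ → ℝ × ℝ := fun q => (q.1 + t * q.2, q.2) with hTdef
  have hTinj : Function.Injective T := by
    intro u w h
    simp only [hTdef, Prod.mk.injEq] at h
    obtain ⟨h1, h2⟩ := h
    rw [h2] at h1
    exact Prod.ext (by linarith) h2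
  have hcardf : ∀ ℓ : Set (ℝ × ℝ), {q | q ∈ X ∧ q ∈ ℓ}.ncard = (X.filter fun q => q ∈ ℓ).card := by
    intro ℓ
    rw [← Set.ncard_coe_finset]
    congr 1
    ext q
    simp
  have hex : ∀ ℓ : Set (ℝ × ℝ), ∃ l : ℝ × ℝ, ℓ ∈ 𝓛 →
      ∀ q : ℝ × ℝ, q ∈ ℓ ↔ q.2 = l.1 * (q.1 + t * q.2) + l.2 := by
    intro ℓ
    by_cases hℓ : ℓ ∈ 𝓛
    · obtain ⟨a, b, c, hab, hℓe⟩ := hlines ℓ hℓ
      have hne : b - t * a ≠ 0 := by
        intro h0
        have ha : a ≠ 0 := by
          rintro rfl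
          have hb : b = 0 := by linarith
          rcases hab with h | h
          · exact h rfl
          · exact h hb
        have hk' := hk ℓ hℓ
        rw [hcardf] at hk'
        have h2 : 1 < (X.filter fun q => q ∈ ℓ).card := by omega
        obtain ⟨u, hu, w, hw, huw⟩ := Finset.one_lt_card.mp h2
        obtain ⟨hu1, hu2⟩ := Finset.mem_filter.mp hu
        obtain ⟨hw1, hw2⟩ := Finset.mem_filter.mp hw
        apply huw
        apply hT u hu1 w hw1
        rw [hℓe] at hu2 hw2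
        have e1 : a * u.1 + b * u.2 = c := hu2
        have e2 : a * w.1 + b * w.2 = c := hw2
        have hb : b = t * a := by linarith
        rw [hb] at e1 e2
        have : a * (u.1 + t * u.2) = a * (w.1 + t * w.2) := by linarith
        exact mul_left_cancel₀ ha this
      refine ⟨(-a / (b - t * a), c / (b - t * a)), fun _ q => ?_⟩
      rw [hℓe]
      show a * q.1 + b * q.2 = c ↔ _
      simp only
      rw [div_mul_eq_mul_div, ← add_div, eq_div_iff hne]
      constructor <;> intro h <;> linarith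
    · exact ⟨(0, 0), fun h => absurd h hℓ⟩
  choose l hl using hex
  have hlinj : Set.InjOn l 𝓛 := by
    intro ℓ hℓ ℓ' hℓ' h
    ext q
    rw [hl ℓ hℓ q, hl ℓ' hℓ' q, h]
  have h1 : (X.image T).card ≤ n ^ 2 := Finset.card_image_le.trans hX
  have h2 : ∀ u ∈ X.image T, ∀ w ∈ X.image T, u.1 = w.1 → u = w := by
    intro u hu w hw h
    obtain ⟨u', hu', rfl⟩ := Finset.mem_image.mp hu
    obtain ⟨w', hw', rfl⟩ := Finset.mem_image.mp hw
    rw [hT u' hu' w' hw' h]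
  have h3 : ∀ m ∈ 𝓛.image l, n ≤ 4 * (onl (X.image T) m).card := by
    intro m hm
    obtain ⟨ℓ, hℓ, rfl⟩ := Finset.mem_image.mp hm
    have h4 := hk ℓ hℓ
    rw [hcardf] at h4
    have h5 : (X.filter fun q => q ∈ ℓ).card ≤ (onl (X.image T) (l ℓ)).card := by
      rw [← Finset.card_image_of_injective _ hTinj]
      apply Finset.card_le_card
      intro p hp
      obtain ⟨q, hq, rfl⟩ := Finset.mem_image.mp hp
      obtain ⟨hq1, hq2⟩ := Finset.mem_filter.mp hq
      exact mem_onl.mpr ⟨Finset.mem_image_of_mem _ hq1, (hl ℓ hℓ q).mp hq2⟩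
    omega
  have h4 := rich_aux n hn h1 h2 (𝓛.image l) h3
  rwa [Finset.card_image_of_injOn hlinj] at h4

end Pool.Agent.Work.MP_d899bc_co.ST
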