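import Pool.Agent.Work.MP_d899bc_co.ST.Planar

/-!
The crossing lemma for straight-line drawings, in the form
`e q^2 ≤ 3 v q^3 + cr` for all `q ≥ 1` (`cr` counts ordered crossing pairs).
-/

set_option autoImplicit false

namespace Pool.Agent.Work.MP_d899bc_co.ST

open Set Filter Topology

variable {V : Finset (ℝ × ℝ)} {E : Finset ((ℝ × ℝ) × (ℝ × ℝ))}

theorem ht_sub (e : (ℝ × ℝ) × (ℝ × ℝ)) (a x : ℝ) : ht e x = ht e a + slp e * (x - a) := by
  simp only [ht]; ring

theorem ht_eq_of_two {e f : (ℝ × ℝ) × (ℝ × ℝ)} {a b : ℝ} (hab : a ≠ b) (ha : ht e a = ht f a)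
    (hb : ht e b = ht f b) (x : ℝ) : ht e x = ht f x := by
  have h1 := ht_sub e a b
  have h2 := ht_sub f a b
  have h3 : slp e = slp f := by
    have : (slp e - slp f) * (b - a) = 0 := by linarith
    rcases mul_eq_zero.mp this with h | h
    · linarith
    · exact absurd (by linarith) hab
  rw [ht_sub e a x, ht_sub f a x, ha, h3]

theorem Crosses.ne_left (hD : Drawing V E) {e f : (ℝ × ℝ) × (ℝ × ℝ)} (he : e ∈ E) (hf : f ∈ E)
    (h : Crosses e f) : e.1 ≠ f.1 := by
  intro h1
  obtain ⟨hne, x, hx1, hx2, hx3, hx4, hx5⟩ := h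
  have hall := ht_eq_of_two (e := e) (f := f) (a := e.1.1) (b := x) hx1.ne
    (by rw [ht_left e]; rw [h1]; exact (ht_left f).symm) hx5
  have h2 : e.2 ≠ f.2 := fun h2 => hne (Prod.ext h1 h2)
  have h3 : e.2.1 ≠ f.2.1 := fun h3 => h2 (hD.inj _ (hD.right e he) _ (hD.right f hf) h3)
  rcases lt_or_gt_of_ne h3 with h4 | h4
  · refine hD.vert f hf e.2 (hD.right e he) ?_ h4 ?_
    · rw [← h1]; exact hD.lt e he
    · rw [← hall, ht_right e (hD.lt e he)]
  · refine hD.vert e he f.2 (hD.right f hf) ?_ h4 ?_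
    · rw [h1]; exact hD.lt f hf
    · rw [hall, ht_right f (hD.lt f hf)]

theorem Crosses.ne_right (hD : Drawing V E) {e f : (ℝ × ℝ) × (ℝ × ℝ)} (he : e ∈ E) (hf : f ∈ E)
    (h : Crosses e f) : e.2 ≠ f.2 := by
  intro h1
  obtain ⟨hne, x, hx1, hx2, hx3, hx4, hx5⟩ := h
  have hall := ht_eq_of_two (e := e) (f := f) (a := e.2.1) (b := x) hx2.ne'
    (by rw [ht_right e (hD.lt e he)]; rw [h1]; exact (ht_right f (hD.lt f hf)).symm) hx5
  have h2 : e.1 ≠ f.1 := fun h2 => hne (Prod.ext h2 h1)
  have h3 : e.1.1 ≠ f.1.1 := fun h3 => h2 (hD.inj _ (hD.left e he) _ (hD.left f hf) h3)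
  rcases lt_or_gt_of_ne h3 with h4 | h4
  · refine hD.vert e he f.1 (hD.left f hf) h4 ?_ ?_
    · rw [h1]; exact hD.lt f hf
    · rw [hall, ht_left f]
  · refine hD.vert f hf e.1 (hD.left e he) h4 ?_ ?_
    · rw [← h1]; exact hD.lt e he
    · rw [← hall, ht_left e]

theorem Crosses.ne_lr {e f : (ℝ × ℝ) × (ℝ × ℝ)} (h : Crosses e f) : e.1 ≠ f.2 := by
  intro h1
  obtain ⟨-, x, hx1, hx2, hx3, hx4, -⟩ := h
  rw [h1] at hx1
  linarith

theorem Crosses.ne_rl {e f : (ℝ × ℝ) × (ℝ × ℝ)} (h : Crosses e f) : e.2 ≠ f.1 := by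
  intro h1
  obtain ⟨-, x, hx1, hx2, hx3, hx4, -⟩ := h
  rw [h1] at hx2
  linarith

/-- number of colourings with prescribed colour on `T` -/
theorem card_color {ι : Type*} [Fintype ι] [DecidableEq ι] {q : ℕ} (z : Fin q) (T : Finset ι) :
    (Finset.univ.filter fun c : ι → Fin q => ∀ v ∈ T, c v = z).card * q ^ T.card =
      q ^ Fintype.card ι := by
  have h1 : (Finset.univ.filter fun c : ι → Fin q => ∀ v ∈ T, c v = z) =
      Fintype.piFinset (fun v => if v ∈ T then ({z} : Finset (Fin q)) else Finset.univ) := by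
    ext c
    simp only [Finset.mem_filter, Finset.mem_univ, true_and, Fintype.mem_piFinset]
    constructor
    · intro h v
      by_cases hv : v ∈ T
      · simp [hv, h v hv]
      · simp [hv]
    · intro h v hv
      have := h v
      simpa [hv] using this
  rw [h1, Fintype.card_piFinset]
  have h2 : ∀ v : ι, (if v ∈ T then ({z} : Finset (Fin q)) else Finset.univ).card =
      if v ∈ T then 1 else q := by
    intro v
    split_ifs <;> simp
  rw [Finset.prod_congr rfl fun v _ => h2 v, Finset.prod_ite]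
  simp only [Finset.prod_const_one, one_mul, Finset.prod_const]
  rw [← pow_add]
  congr 1
  have h3 : (Finset.univ.filter fun v => v ∉ T) = Tᶜ := by
    ext v; simp
  rw [h3, Finset.card_compl]
  have := Finset.card_le_univ T
  omega

/-- ordered crossing pairs -/
noncomputable def crossPairs (E : Finset ((ℝ × ℝ) × (ℝ × ℝ))) :
    Finset (((ℝ × ℝ) × (ℝ × ℝ)) × ((ℝ × ℝ) × (ℝ × ℝ))) :=
  open Classical in (E ×ˢ E).filter fun p => Crosses p.1 p.2

theorem planar_del (hD : Drawing V E) : E.card ≤ 3 * V.card + (crossPairs E).card := by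
  classical
  set F := E.filter fun e => ∀ f ∈ E, ¬ Crosses e f with hF
  set G := E.filter fun e => ¬ ∀ f ∈ E, ¬ Crosses e f with hG
  have hsplit : F.card + G.card = E.card := Finset.card_filter_add_card_filter_not _
  have h1 : F.card ≤ 3 * V.card := by
    apply planar_bound (E := F)
    · refine ⟨fun e he => hD.left e (Finset.mem_filter.mp he).1,
        fun e he => hD.right e (Finset.mem_filter.mp he).1,
        fun e he => hD.lt e (Finset.mem_filter.mp he).1, hD.inj,
        fun e he => hD.vert e (Finset.mem_filter.mp he).1⟩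
    · intro e he f hf
      exact (Finset.mem_filter.mp he).2 f (Finset.mem_filter.mp hf).1
  have h2 : G.card ≤ (crossPairs E).card := by
    have hex : ∀ e : (ℝ × ℝ) × (ℝ × ℝ), ∃ f, e ∈ G → f ∈ E ∧ Crosses e f := by
      intro e
      by_cases he : e ∈ G
      · have := (Finset.mem_filter.mp he).2
        push Not at this
        obtain ⟨f, hf, hc⟩ := this
        exact ⟨f, fun _ => ⟨hf, hc⟩⟩
      · exact ⟨e, fun h => absurd h he⟩
    choose g hg using hex
    apply Finset.card_le_card_of_injOn (fun e => (e, g e))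
    · intro e he
      obtain ⟨a, b⟩ := hg e he
      exact Finset.mem_filter.mpr ⟨Finset.mem_product.mpr ⟨(Finset.mem_filter.mp he).1, a⟩, b⟩
    · intro e _ f _ h
      exact (Prod.mk.inj h).1
  omega

theorem sum_swap {α β : Type*} [Fintype α] (B : Finset β) (P : α → β → Prop)
    [∀ a, DecidablePred (P a)] [∀ b, DecidablePred fun a => P a b] :
    ∑ a : α, (B.filter fun b => P a b).card =
      ∑ b ∈ B, (Finset.univ.filter fun a => P a b).card := by
  simp only [Finset.card_filter]
  rw [Finset.sum_comm]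

theorem crossing_lemma (hD : Drawing V E) (q : ℕ) (hq : 0 < q) :
    E.card * q ^ 2 ≤ 3 * V.card * q ^ 3 + (crossPairs E).card := by
  classical
  set z : Fin q := ⟨0, hq⟩
  set N := V.card with hN
  -- selected vertices of a colouring
  let sel : (V → Fin q) → (ℝ × ℝ) → Prop := fun c v => ∀ h : v ∈ V, c ⟨v, h⟩ = z
  have hcard : Fintype.card V = N := by simp [hN]
  -- the inequality for one colouring
  have hone : ∀ c : V → Fin q, (E.filter fun e => sel c e.1 ∧ sel c e.2).card ≤
      3 * (V.filter fun v => sel c v).card +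
        ((crossPairs E).filter fun p => (sel c p.1.1 ∧ sel c p.1.2) ∧
          (sel c p.2.1 ∧ sel c p.2.2)).card := by
    intro c
    have hDc : Drawing (V.filter fun v => sel c v) (E.filter fun e => sel c e.1 ∧ sel c e.2) := by
      refine ⟨?_, ?_, ?_, ?_, ?_⟩
      · intro e he
        obtain ⟨h1, h2, h3⟩ := Finset.mem_filter.mp he
        exact Finset.mem_filter.mpr ⟨hD.left e h1, h2⟩
      · intro e he
        obtain ⟨h1, h2, h3⟩ := Finset.mem_filter.mp he
        exact Finset.mem_filter.mpr ⟨hD.right e h1, h3⟩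
      · intro e he
        exact hD.lt e (Finset.mem_filter.mp he).1
      · intro u hu w hw
        exact hD.inj u (Finset.mem_filter.mp hu).1 w (Finset.mem_filter.mp hw).1
      · intro e he w hw
        exact hD.vert e (Finset.mem_filter.mp he).1 w (Finset.mem_filter.mp hw).1
    refine (planar_del hDc).trans ?_
    gcongr
    intro p hp
    simp only [crossPairs, Finset.mem_filter, Finset.mem_product] at hp ⊢
    exact ⟨⟨⟨hp.1.1.1, hp.1.2.1⟩, hp.2⟩, hp.1.1.2, hp.1.2.2⟩
  -- summation
  have hsum := Finset.sum_le_sum fun c (_ : c ∈ (Finset.univ : Finset (V → Fin q))) => hone c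
  rw [sum_swap E (fun c e => sel c e.1 ∧ sel c e.2), Finset.sum_add_distrib, ← Finset.mul_sum,
    sum_swap V (fun c v => sel c v),
    sum_swap (crossPairs E) (fun c p => (sel c p.1.1 ∧ sel c p.1.2) ∧
          (sel c p.2.1 ∧ sel c p.2.2))] at hsum
  -- count for single vertices, edges and crossing pairs
  have hVc : ∀ v ∈ V, (Finset.univ.filter fun c : V → Fin q => sel c v).card * q = q ^ N := by
    intro v hv
    have := card_color z ({⟨v, hv⟩} : Finset V)
    rw [hcard, Finset.card_singleton, pow_one] at this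
    rw [← this]
    congr 2
    ext c
    simp only [Finset.mem_filter, Finset.mem_univ, true_and, Finset.mem_singleton, forall_eq, sel]
    exact ⟨fun h => h hv, fun h _ => h⟩
  have hEc : ∀ e ∈ E, (Finset.univ.filter fun c : V → Fin q => sel c e.1 ∧ sel c e.2).card *
      q ^ 2 = q ^ N := by
    intro e he
    have h1 := hD.left e he
    have h2 := hD.right e he
    have hne : (⟨e.1, h1⟩ : V) ≠ ⟨e.2, h2⟩ := by
      intro h
      have h' : e.1 = e.2 := congrArg Subtype.val h
      have := hD.lt e he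
      rw [h'] at this
      exact lt_irrefl _ this
    have := card_color z ({⟨e.1, h1⟩, ⟨e.2, h2⟩} : Finset V)
    rw [hcard, Finset.card_pair hne] at this
    rw [← this]
    congr 2
    ext c
    simp only [Finset.mem_filter, Finset.mem_univ, true_and, Finset.mem_insert,
      Finset.mem_singleton, forall_eq_or_imp, forall_eq, sel]
    exact ⟨fun h => ⟨h.1 h1, h.2 h2⟩, fun h => ⟨fun _ => h.1, fun _ => h.2⟩⟩
  have hCc : ∀ p ∈ crossPairs E, (Finset.univ.filter fun c : V → Fin q =>
      (sel c p.1.1 ∧ sel c p.1.2) ∧ (sel c p.2.1 ∧ sel c p.2.2)).card * q ^ 4 = q ^ N := by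
    intro p hp
    simp only [crossPairs, Finset.mem_filter, Finset.mem_product] at hp
    obtain ⟨⟨he, hf⟩, hc⟩ := hp
    have h1 := hD.left _ he
    have h2 := hD.right _ he
    have h3 := hD.left _ hf
    have h4 := hD.right _ hf
    have n12 : p.1.1 ≠ p.1.2 := fun h => by
      have := hD.lt _ he
      rw [h] at this
      exact lt_irrefl _ this
    have n34 : p.2.1 ≠ p.2.2 := fun h => by
      have := hD.lt _ hf
      rw [h] at this
      exact lt_irrefl _ this
    have n13 : p.1.1 ≠ p.2.1 := hc.ne_left hD he hf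
    have n24 : p.1.2 ≠ p.2.2 := hc.ne_right hD he hf
    have n14 : p.1.1 ≠ p.2.2 := hc.ne_lr
    have n23 : p.1.2 ≠ p.2.1 := hc.ne_rl
    have hcc := card_color z ({⟨p.1.1, h1⟩, ⟨p.1.2, h2⟩, ⟨p.2.1, h3⟩, ⟨p.2.2, h4⟩} : Finset V)
    have h44 : ({⟨p.1.1, h1⟩, ⟨p.1.2, h2⟩, ⟨p.2.1, h3⟩, ⟨p.2.2, h4⟩} : Finset V).card = 4 := by
      rw [Finset.card_insert_of_notMem, Finset.card_insert_of_notMem,
        Finset.card_insert_of_notMem, Finset.card_singleton]
      · simp [n34]
      · simp [n23, n24]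
      · simp [n12, n13, n14]
    rw [hcard, h44] at hcc
    rw [← hcc]
    congr 2
    ext c
    simp only [Finset.mem_filter, Finset.mem_univ, true_and, Finset.mem_insert,
      Finset.mem_singleton, forall_eq_or_imp, forall_eq, sel]
    exact ⟨fun h => ⟨h.1.1 h1, h.1.2 h2, h.2.1 h3, h.2.2 h4⟩,
      fun h => ⟨⟨fun _ => h.1, fun _ => h.2.1⟩, fun _ => h.2.2.1, fun _ => h.2.2.2⟩⟩
  have hEs : (∑ e ∈ E, (Finset.univ.filter fun c : V → Fin q => sel c e.1 ∧ sel c e.2).card) *
      q ^ 2 = E.card * q ^ N := by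
    rw [Finset.sum_mul, Finset.sum_congr rfl hEc, Finset.sum_const, smul_eq_mul]
  have hVs : (∑ v ∈ V, (Finset.univ.filter fun c : V → Fin q => sel c v).card) * q =
      V.card * q ^ N := by
    rw [Finset.sum_mul, Finset.sum_congr rfl hVc, Finset.sum_const, smul_eq_mul]
  have hCs : (∑ p ∈ crossPairs E, (Finset.univ.filter fun c : V → Fin q =>
      (sel c p.1.1 ∧ sel c p.1.2) ∧ (sel c p.2.1 ∧ sel c p.2.2)).card) * q ^ 4 =
      (crossPairs E).card * q ^ N := by
    rw [Finset.sum_mul, Finset.sum_congr rfl hCc, Finset.sum_const, smul_eq_mul]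
  set SE := ∑ e ∈ E, (Finset.univ.filter fun c : V → Fin q => sel c e.1 ∧ sel c e.2).card
  set SV := ∑ v ∈ V, (Finset.univ.filter fun c : V → Fin q => sel c v).card
  set SC := ∑ p ∈ crossPairs E, (Finset.univ.filter fun c : V → Fin q =>
      (sel c p.1.1 ∧ sel c p.1.2) ∧ (sel c p.2.1 ∧ sel c p.2.2)).card
  have hpos : 0 < q ^ N := pow_pos hq N
  have hfin : (E.card * q ^ 2) * q ^ N ≤ (3 * V.card * q ^ 3 + (crossPairs E).card) * q ^ N := by
    calc (E.card * q ^ 2) * q ^ N = (E.card * q ^ N) * q ^ 2 := by ring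
      _ = SE * q ^ 4 := by rw [← hEs]; ring
      _ ≤ (3 * SV + SC) * q ^ 4 := Nat.mul_le_mul_right _ hsum
      _ = 3 * (SV * q) * q ^ 3 + SC * q ^ 4 := by ring
      _ = (3 * V.card * q ^ 3 + (crossPairs E).card) * q ^ N := by rw [hVs, hCs]; ring
  exact Nat.le_of_mul_le_mul_right hfin hpos

end Pool.Agent.Work.MP_d899bc_co.ST
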