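import Mathlib

/-!
Straight-line plane graphs have at most `3 v` edges: a sweep argument.

An edge is a pair `(p, q)` of points with `p.1 < q.1`.
-/

set_option autoImplicit false

namespace Pool.Agent.Work.MP_d899bc_co.ST

open Set Filter Topology

/-- slope of an edge -/
noncomputable def slp (e : (ℝ × ℝ) × (ℝ × ℝ)) : ℝ := (e.2.2 - e.1.2) / (e.2.1 - e.1.1)

/-- height of the line through an edge at abscissa `x` -/
noncomputable def ht (e : (ℝ × ℝ) × (ℝ × ℝ)) (x : ℝ) : ℝ := e.1.2 + slp e * (x - e.1.1)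

theorem ht_left (e : (ℝ × ℝ) × (ℝ × ℝ)) : ht e e.1.1 = e.1.2 := by simp [ht]

theorem ht_right (e : (ℝ × ℝ) × (ℝ × ℝ)) (h : e.1.1 < e.2.1) : ht e e.2.1 = e.2.2 := by
  have : e.2.1 - e.1.1 ≠ 0 := (sub_pos.mpr h).ne'
  simp only [ht, slp]
  field_simp
  ring

theorem ht_cont (e : (ℝ × ℝ) × (ℝ × ℝ)) : Continuous (ht e) := by
  unfold ht
  fun_prop

/-- The hypotheses on a straight-line drawing: all abscissas of vertices are different and no
vertex is inside an edge. -/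
structure Drawing (V : Finset (ℝ × ℝ)) (E : Finset ((ℝ × ℝ) × (ℝ × ℝ))) : Prop where
  left : ∀ e ∈ E, e.1 ∈ V
  right : ∀ e ∈ E, e.2 ∈ V
  lt : ∀ e ∈ E, e.1.1 < e.2.1
  inj : ∀ u ∈ V, ∀ w ∈ V, u.1 = w.1 → u = w
  vert : ∀ e ∈ E, ∀ w ∈ V, e.1.1 < w.1 → w.1 < e.2.1 → w.2 ≠ ht e w.1

/-- two edges cross -/
def Crosses (e f : (ℝ × ℝ) × (ℝ × ℝ)) : Prop :=
  e ≠ f ∧ ∃ x, e.1.1 < x ∧ x < e.2.1 ∧ f.1.1 < x ∧ x < f.2.1 ∧ ht e x = ht f x

variable {V : Finset (ℝ × ℝ)} {E : Finset ((ℝ × ℝ) × (ℝ × ℝ))}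

theorem keep {e f : (ℝ × ℝ) × (ℝ × ℝ)} (hef : ¬ Crosses e f) (hne : e ≠ f) {a b : ℝ}
    (hea : e.1.1 ≤ a) (hfa : f.1.1 ≤ a) (heb : b ≤ e.2.1) (hfb : b ≤ f.2.1) (hab : a ≤ b)
    (h1 : ht e a < ht f a) (h2 : ht f b < ht e b) : False := by
  have hc : ContinuousOn (fun x => ht e x - ht f x) (Icc a b) :=
    ((ht_cont e).sub (ht_cont f)).continuousOn
  have h0 : (0 : ℝ) ∈ Icc ((fun x => ht e x - ht f x) a) ((fun x => ht e x - ht f x) b) :=
    ⟨by simp only; linarith, by simp only; linarith⟩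
  obtain ⟨z, hz, hz0⟩ := intermediate_value_Icc hab hc h0
  simp only at hz0
  have hza : z ≠ a := by rintro rfl; linarith
  have hzb : z ≠ b := by rintro rfl; linarith
  have h3 : a < z := lt_of_le_of_ne hz.1 (Ne.symm hza)
  have h4 : z < b := lt_of_le_of_ne hz.2 hzb
  exact hef ⟨hne, z, by linarith, by linarith, by linarith, by linarith, by linarith⟩

theorem crosses_symm {e f : (ℝ × ℝ) × (ℝ × ℝ)} (h : Crosses e f) : Crosses f e := by
  obtain ⟨h, x, h1, h2, h3, h4, h5⟩ := h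
  exact ⟨h.symm, x, h3, h4, h1, h2, h5.symm⟩

/-- `(e', e)` is a wedge (two consecutive edges going right from a vertex) and `w` is the leftmost
vertex in it. -/
structure Charge (V : Finset (ℝ × ℝ)) (E : Finset ((ℝ × ℝ) × (ℝ × ℝ)))
    (e e' : (ℝ × ℝ) × (ℝ × ℝ)) (w : ℝ × ℝ) : Prop where
  he : e ∈ E
  he' : e' ∈ E
  start : e.1 = e'.1
  slope : slp e' < slp e
  next : ∀ f ∈ E, f.1 = e.1 → slp e' < slp f → ¬ slp f < slp e
  hw : w ∈ V
  w0 : e.1.1 < w.1
  w1 : w.1 ≤ e.2.1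
  w2 : w.1 ≤ e'.2.1
  w3 : ht e' w.1 ≤ w.2
  w4 : w.2 ≤ ht e w.1
  empty : ∀ u ∈ V, e.1.1 < u.1 → u.1 < w.1 → ht e' u.1 ≤ u.2 → ¬ u.2 ≤ ht e u.1

theorem ht_lt_of_slp {e f : (ℝ × ℝ) × (ℝ × ℝ)} (h : e.1 = f.1) (hs : slp f < slp e) {x : ℝ}
    (hx : e.1.1 < x) : ht f x < ht e x := by
  simp only [ht, ← h]
  have : 0 < x - e.1.1 := by linarith
  nlinarith

theorem slp_lt_of_ht {e f : (ℝ × ℝ) × (ℝ × ℝ)} (h : e.1 = f.1) {x : ℝ}
    (hx : e.1.1 < x) (hs : ht f x < ht e x) : slp f < slp e := by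
  simp only [ht, ← h] at hs
  have : 0 < x - e.1.1 := by linarith
  nlinarith

/-- No edge enters a wedge. -/
theorem Charge.free (hD : Drawing V E) (hcr : ∀ e ∈ E, ∀ f ∈ E, ¬ Crosses e f)
    {e e' : (ℝ × ℝ) × (ℝ × ℝ)} {w : ℝ × ℝ} (hC : Charge V E e e' w)
    {f : (ℝ × ℝ) × (ℝ × ℝ)} (hf : f ∈ E) (hfe : f ≠ e) (hfe' : f ≠ e') {x : ℝ}
    (hx0 : e.1.1 < x) (hx1 : x < w.1) (hx2 : f.1.1 < x) (hx3 : x < f.2.1)
    (h1 : ht e' x ≤ ht f x) (h2 : ht f x ≤ ht e x) : False := by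
  have he := hC.he
  have he' := hC.he'
  have hst := hC.start
  have h1' : ht e' x < ht f x := by
    refine lt_of_le_of_ne h1 fun h => hcr _ he' _ hf ⟨hfe'.symm, x, ?_, ?_, hx2, hx3, h⟩
    · rw [← hst]; exact hx0
    · exact hx1.trans_le hC.w2
  have h2' : ht f x < ht e x := by
    refine lt_of_le_of_ne h2 fun h => hcr _ hf _ he ⟨hfe, x, hx2, hx3, hx0, ?_, h⟩
    exact hx1.trans_le hC.w1
  rcases lt_trichotomy f.1.1 e.1.1 with h | h | h
  · -- `f` passes over the apex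
    have hv := hD.vert f hf e.1 (hD.left e he) h (hx0.trans hx3)
    apply hv
    have ha : ht f e.1.1 ≤ ht e e.1.1 := by
      by_contra hcon
      push Not at hcon
      exact keep (hcr _ he _ hf) hfe.symm le_rfl h.le (hx1.le.trans hC.w1) hx3.le hx0.le hcon h2'
    have hb : ht e' e.1.1 ≤ ht f e.1.1 := by
      by_contra hcon
      push Not at hcon
      exact keep (hcr _ hf _ he') hfe' h.le (le_of_eq (by rw [hst])) hx3.le
        (hx1.le.trans hC.w2) hx0.le hcon h1'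
    have hl1 : ht e e.1.1 = e.1.2 := ht_left e
    have hl2 : ht e' e.1.1 = e.1.2 := by
      have := ht_left e'
      rw [← hst] at this
      exact this
    linarith
  · -- `f` starts at the apex
    have hv : f.1 = e.1 := hD.inj _ (hD.left f hf) _ (hD.left e he) h
    have s1 : slp e' < slp f := by
      apply slp_lt_of_ht (e := f) (f := e') (by rw [hv, hst]) hx2 h1'
    have s2 : slp f < slp e := slp_lt_of_ht hv.symm hx0 h2'
    exact hC.next f hf hv s1 s2
  · -- `f` starts inside the wedge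
    have hu := hC.empty f.1 (hD.left f hf) h (hx2.trans hx1)
    have hfl : ht f f.1.1 = f.1.2 := ht_left f
    refine hu ?_ ?_
    · by_contra hcon
      push Not at hcon
      rw [← hfl] at hcon
      exact keep (hcr _ hf _ he') hfe' le_rfl (by rw [← hst]; exact h.le) hx3.le
        (hx1.le.trans hC.w2) hx2.le hcon h1'
    · by_contra hcon
      push Not at hcon
      rw [← hfl] at hcon
      exact keep (hcr _ he _ hf) hfe.symm h.le le_rfl (hx1.le.trans hC.w1) hx3.le hx2.le hcon h2'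

theorem compare (hcr : ∀ e ∈ E, ∀ f ∈ E, ¬ Crosses e f) {e f : (ℝ × ℝ) × (ℝ × ℝ)}
    (he : e ∈ E) (hf : f ∈ E) (hne : e ≠ f) {a : ℝ} (h1 : e.1.1 < a) (h2 : a ≤ e.2.1)
    (h3 : f.1.1 < a) (h4 : a ≤ f.2.1) :
    (∀ᶠ x in 𝓝[<] a, ht e x < ht f x) ∨ (∀ᶠ x in 𝓝[<] a, ht f x < ht e x) := by
  have hev : ∀ᶠ x in 𝓝[<] a, x ∈ Ioo (max e.1.1 f.1.1) a :=
    Ioo_mem_nhdsLT (max_lt h1 h3)
  obtain ⟨b, hb⟩ := hev.exists
  have hb1 : max e.1.1 f.1.1 < b := hb.1
  have hb1e : e.1.1 < b := (le_max_left _ _).trans_lt hb1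
  have hb1f : f.1.1 < b := (le_max_right _ _).trans_lt hb1
  have hbne : ht e b ≠ ht f b := fun h =>
    hcr _ he _ hf ⟨hne, b, hb1e, hb.2.trans_le h2, hb1f, hb.2.trans_le h4, h⟩
  rcases lt_or_gt_of_ne hbne with h | h
  · left
    filter_upwards [hev] with x hx
    have hx1e : e.1.1 < x := (le_max_left _ _).trans_lt hx.1
    have hx1f : f.1.1 < x := (le_max_right _ _).trans_lt hx.1
    by_contra hcon
    push Not at hcon
    have hxne : ht f x ≠ ht e x := fun h =>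
      hcr _ hf _ he ⟨hne.symm, x, hx1f, hx.2.trans_le h4, hx1e, hx.2.trans_le h2, h⟩
    have hlt : ht f x < ht e x := lt_of_le_of_ne hcon hxne
    rcases le_total b x with hbx | hbx
    · exact keep (hcr _ he _ hf) hne hb1e.le hb1f.le (hx.2.le.trans h2) (hx.2.le.trans h4) hbx h hlt
    · exact keep (hcr _ hf _ he) hne.symm hx1f.le hx1e.le (hb.2.le.trans h4) (hb.2.le.trans h2)
        hbx hlt h
  · right
    filter_upwards [hev] with x hx
    have hx1e : e.1.1 < x := (le_max_left _ _).trans_lt hx.1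
    have hx1f : f.1.1 < x := (le_max_right _ _).trans_lt hx.1
    by_contra hcon
    push Not at hcon
    have hxne : ht e x ≠ ht f x := fun h =>
      hcr _ he _ hf ⟨hne, x, hx1e, hx.2.trans_le h2, hx1f, hx.2.trans_le h4, h⟩
    have hlt : ht e x < ht f x := lt_of_le_of_ne hcon hxne
    rcases le_total b x with hbx | hbx
    · exact keep (hcr _ hf _ he) hne.symm hb1f.le hb1e.le (hx.2.le.trans h4) (hx.2.le.trans h2)
        hbx h hlt
    · exact keep (hcr _ he _ hf) hne hx1e.le hx1f.le (hb.2.le.trans h2) (hb.2.le.trans h4)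
        hbx hlt h

theorem Charge.strict {e e' : (ℝ × ℝ) × (ℝ × ℝ)} {w : ℝ × ℝ} (hC : Charge V E e e' w) :
    ht e' w.1 < ht e w.1 := ht_lt_of_slp hC.start hC.slope hC.w0

/-- one half of the uniqueness statement -/
theorem Charge.aux (hD : Drawing V E) (hcr : ∀ e ∈ E, ∀ f ∈ E, ¬ Crosses e f)
    {e e' f f' : (ℝ × ℝ) × (ℝ × ℝ)} {w : ℝ × ℝ} (hC : Charge V E e e' w)
    (hC' : Charge V E f f' w) (hne : e ≠ f) (hlt : ht f' w.1 < ht e w.1)
    (hev : ∀ᶠ x in 𝓝[<] w.1, ht e x < ht f x) : False := by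
  have h1 : ∀ᶠ x in 𝓝[<] w.1, x ∈ Ioo (max e.1.1 f.1.1) w.1 :=
    Ioo_mem_nhdsLT (max_lt hC.w0 hC'.w0)
  have h2 : ∀ᶠ x in 𝓝[<] w.1, ht f' x < ht e x :=
    ((ht_cont f').continuousAt.eventually_lt (ht_cont e).continuousAt hlt).filter_mono
      nhdsWithin_le_nhds
  obtain ⟨x, ⟨hx, hx2⟩, hx3⟩ := ((h1.and h2).and hev).exists
  refine hC'.free hD hcr hC.he hne ?_ ((le_max_right _ _).trans_lt hx.1) hx.2
    ((le_max_left _ _).trans_lt hx.1) (hx.2.trans_le hC.w1) hx2.le hx3.le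
  rintro rfl
  exact lt_irrefl _ hlt

theorem Charge.unique (hD : Drawing V E) (hcr : ∀ e ∈ E, ∀ f ∈ E, ¬ Crosses e f)
    {e e' f f' : (ℝ × ℝ) × (ℝ × ℝ)} {w : ℝ × ℝ} (hC : Charge V E e e' w)
    (hC' : Charge V E f f' w) (hty : w = e.2 ↔ w = f.2) : e = f := by
  by_contra hne
  have key : ht f' w.1 < ht e w.1 ∧ ht e' w.1 < ht f w.1 := by
    by_cases h : w = e.2
    · have h' := hty.mp h
      have a1 : ht e w.1 = w.2 := by rw [h]; exact ht_right e (hD.lt e hC.he)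
      have a2 : ht f w.1 = w.2 := by rw [h']; exact ht_right f (hD.lt f hC'.he)
      have b1 := hC.strict
      have b2 := hC'.strict
      constructor <;> linarith
    · have h' : ¬ w = f.2 := fun h' => h (hty.mpr h')
      have aux : ∀ {g g' : (ℝ × ℝ) × (ℝ × ℝ)}, Charge V E g g' w → ¬ w = g.2 →
          w.2 < ht g w.1 := by
        intro g g' hg hgw
        have hlt : w.1 < g.2.1 := by
          refine lt_of_le_of_ne hg.w1 fun heq => hgw ?_
          exact hD.inj _ hg.hw _ (hD.right g hg.he) heq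
        exact lt_of_le_of_ne hg.w4 (hD.vert g hg.he w hg.hw hg.w0 hlt)
      have a1 := aux hC h
      have a2 := aux hC' h'
      have b1 := hC.w3
      have b2 := hC'.w3
      constructor <;> linarith
  rcases compare hcr hC.he hC'.he hne hC.w0 hC.w1 hC'.w0 hC'.w1 with h | h
  · exact Charge.aux hD hcr hC hC' hne key.1 h
  · exact Charge.aux hD hcr hC' hC (Ne.symm hne) key.2 h

/-- Each edge that is not the lowest one going right from its left end has a charge. -/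
theorem exists_charge (hD : Drawing V E)
    {e f : (ℝ × ℝ) × (ℝ × ℝ)} (he : e ∈ E) (hf : f ∈ E) (hst : f.1 = e.1) (hs : slp f < slp e) :
    ∃ e' w, Charge V E e e' w := by
  classical
  obtain ⟨e', he'mem, he'max⟩ := Finset.exists_max_image
    (E.filter fun g => g.1 = e.1 ∧ slp g < slp e) slp ⟨f, Finset.mem_filter.mpr ⟨hf, hst, hs⟩⟩
  obtain ⟨he'E, he'1, he's⟩ := Finset.mem_filter.mp he'mem
  have hnext : ∀ g ∈ E, g.1 = e.1 → slp e' < slp g → ¬ slp g < slp e := by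
    intro g hg hg1 h1 h2
    have := he'max g (Finset.mem_filter.mpr ⟨hg, hg1, h2⟩)
    linarith
  have hne : (V.filter fun u => e.1.1 < u.1 ∧ u.1 ≤ e.2.1 ∧ u.1 ≤ e'.2.1 ∧ ht e' u.1 ≤ u.2 ∧
      u.2 ≤ ht e u.1).Nonempty := by
    rcases le_total e.2.1 e'.2.1 with h | h
    · refine ⟨e.2, Finset.mem_filter.mpr ⟨hD.right e he, hD.lt e he, le_rfl, h, ?_, ?_⟩⟩
      · rw [← ht_right e (hD.lt e he)]
        exact (ht_lt_of_slp he'1.symm he's (hD.lt e he)).le
      · rw [ht_right e (hD.lt e he)]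
    · have hlt := hD.lt e' he'E
      rw [he'1] at hlt
      refine ⟨e'.2, Finset.mem_filter.mpr ⟨hD.right e' he'E, hlt, h, le_rfl, ?_, ?_⟩⟩
      · rw [ht_right e' (hD.lt e' he'E)]
      · rw [← ht_right e' (hD.lt e' he'E)]
        exact (ht_lt_of_slp he'1.symm he's hlt).le
  obtain ⟨w, hw, hwmin⟩ := Finset.exists_min_image _ (fun u : ℝ × ℝ => u.1) hne
  obtain ⟨hwV, hw0, hw1, hw2, hw3, hw4⟩ := Finset.mem_filter.mp hw
  refine ⟨e', w, he, he'E, he'1.symm, he's, hnext, hwV, hw0, hw1, hw2, hw3, hw4, ?_⟩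
  intro u hu hu0 huw hu3 hu4
  have := hwmin u (Finset.mem_filter.mpr ⟨hu, hu0, huw.le.trans hw1, huw.le.trans hw2, hu3, hu4⟩)
  linarith

/-- A plane straight-line graph has at most `3 v` edges. -/
theorem planar_bound (hD : Drawing V E) (hcr : ∀ e ∈ E, ∀ f ∈ E, ¬ Crosses e f) :
    E.card ≤ 3 * V.card := by
  classical
  set Lo : Finset ((ℝ × ℝ) × (ℝ × ℝ)) := E.filter fun e => ∀ f ∈ E, f.1 = e.1 → ¬ slp f < slp e
    with hLo
  set Hi : Finset ((ℝ × ℝ) × (ℝ × ℝ)) := E.filter fun e => ¬ ∀ f ∈ E, f.1 = e.1 → ¬ slp f < slp e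
    with hHi
  have hsplit : Lo.card + Hi.card = E.card := Finset.card_filter_add_card_filter_not _
  -- the lowest edges are determined by their left ends
  have h1 : Lo.card ≤ V.card := by
    apply Finset.card_le_card_of_injOn (fun e => e.1)
    · intro e he
      exact hD.left e (Finset.mem_filter.mp he).1
    · intro e he f hf hef
      obtain ⟨heE, hemin⟩ := Finset.mem_filter.mp he
      obtain ⟨hfE, hfmin⟩ := Finset.mem_filter.mp hf
      simp only at hef
      have hs : slp e = slp f := by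
        have a := hemin f hfE hef.symm
        have b := hfmin e heE hef
        push Not at a b
        exact le_antisymm a b
      by_contra hne
      have hc : ∃ x, e.1.1 < x ∧ x < e.2.1 ∧ x < f.2.1 := by
        obtain ⟨x, hx1, hx2⟩ := exists_between (lt_min (hD.lt e heE)
          (by rw [hef]; exact hD.lt f hfE : e.1.1 < f.2.1))
        exact ⟨x, hx1, hx2.trans_le (min_le_left _ _), hx2.trans_le (min_le_right _ _)⟩
      obtain ⟨x, hx1, hx2, hx3⟩ := hc
      refine hcr _ heE _ hfE ⟨hne, x, hx1, hx2, ?_, hx3, ?_⟩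
      · rw [← hef]; exact hx1
      · simp only [ht, hs, hef]
  have h2 : Hi.card ≤ (V ×ˢ (Finset.univ : Finset Bool)).card := by
    have hex : ∀ e : (ℝ × ℝ) × (ℝ × ℝ), ∃ w : ℝ × ℝ, e ∈ Hi → ∃ e', Charge V E e e' w := by
      intro e
      by_cases he : e ∈ Hi
      · obtain ⟨heE, hn⟩ := Finset.mem_filter.mp he
        push Not at hn
        obtain ⟨f, hf, hf1, hfs⟩ := hn
        obtain ⟨e', w, hc⟩ := exists_charge hD heE hf hf1 hfs
        exact ⟨w, fun _ => ⟨e', hc⟩⟩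
      · exact ⟨e.1, fun h => absurd h he⟩
    choose w hw using hex
    apply Finset.card_le_card_of_injOn (fun e => (w e, decide (w e = e.2)))
    · intro e he
      obtain ⟨e', hc⟩ := hw e he
      exact Finset.mem_product.mpr ⟨hc.hw, Finset.mem_univ _⟩
    · intro e he f hf hef
      obtain ⟨e', hc⟩ := hw e he
      obtain ⟨f', hc'⟩ := hw f hf
      simp only [Prod.mk.injEq] at hef
      obtain ⟨hef1, hef2⟩ := hef
      rw [← hef1] at hc' hef2
      apply Charge.unique hD hcr hc hc'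
      rwa [decide_eq_decide] at hef2
  rw [Finset.card_product] at h2
  simp only [Finset.card_univ, Fintype.card_bool] at h2
  omega

end Pool.Agent.Work.MP_d899bc_co.ST
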